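import Pool.Agent.helper47.CL.SpecD

set_option autoImplicit false

namespace Pool.Agent.helper41.CL

open Finset

theorem MC_zero {α : Type} [DecidableEq α] {V : Finset α} {E : Finset (Finset α)} (hG : Gr V E) :
    #(ind V E 0) = 1 := by
  unfold ind
  rw [powersetCard_zero, filter_true_of_mem]
  · exact card_singleton _
  · intro I hI e he hsub
    rw [mem_singleton.1 hI] at hsub
    have h1 := card_le_card hsub
    rw [(hG e he).2, card_empty] at h1
    omega

theorem MC_one {α : Type} [DecidableEq α] {V : Finset α} {E : Finset (Finset α)} (hG : Gr V E) :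
    #(ind V E 1) = #V := by
  unfold ind
  rw [filter_true_of_mem]
  · rw [card_powersetCard, Nat.choose_one_right]
  · intro I hI e he hsub
    have h1 := card_le_card hsub
    rw [(hG e he).2, (mem_powersetCard.1 hI).2] at h1
    omega

theorem MC_two {α : Type} [DecidableEq α] {V : Finset α} {E : Finset (Finset α)} (hG : Gr V E) :
    (#V).choose 2 ≤ #(ind V E 2) + #E := by
  have h1 : #(V.powersetCard 2) = (#V).choose 2 := card_powersetCard 2 V
  have h2 : V.powersetCard 2 ⊆ ind V E 2 ∪ E := by
    intro I hI
    by_cases h : ∀ e ∈ E, ¬ e ⊆ I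
    · exact mem_union_left _ (mem_filter.2 ⟨hI, h⟩)
    · push Not at h
      obtain ⟨e, he, hsub⟩ := h
      have h3 : e = I := eq_of_subset_of_card_le hsub
        (by rw [(hG e he).2, (mem_powersetCard.1 hI).2])
      rw [← h3]
      exact mem_union_right _ he
  calc (#V).choose 2 = #(V.powersetCard 2) := h1.symm
    _ ≤ #(ind V E 2 ∪ E) := card_le_card h2
    _ ≤ #(ind V E 2) + #E := card_union_le _ _

theorem MC (h1 : MA_stmt) (h2 : MB_stmt) : MC_stmt := by
  intro α _ V E Q hG hV hE
  have hCS : ∀ s : ℕ, ((s + 1) * #(ind V E (s + 1))) ^ 2 ≤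
      #(ind V E s) * (#V * #(ind V E (s + 1)) + s * (s + 2) * #(ind V E (s + 2))) := by
    intro s
    have a1 := h1 α V E s
    have a2 := h2 α V E s hG
    have a3 := sq_sum_le_card_mul_sum_sq (s := ind V E s) (f := fun J => #(ext V E J))
    rw [a1] at a3
    exact a3.trans (Nat.mul_le_mul_left _ a2)
  have h0 := MC_zero hG
  have hone := MC_one hG
  have htwo := MC_two hG
  have key : ∀ s : ℕ, s < Q → 0 < #(ind V E s) ∧
      3 * (Q - s) * #(ind V E s) ≤ (s + 1) * #(ind V E (s + 1)) := by
    intro s
    induction s with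
    | zero =>
      intro _
      refine ⟨by omega, ?_⟩
      rw [h0, hone, hV]
      omega
    | succ s ih =>
      intro hs
      obtain ⟨p1, p2⟩ := ih (by omega)
      obtain ⟨m, hm⟩ : ∃ m, Q = s + 1 + (m + 1) := ⟨Q - s - 2, by omega⟩
      have q1 : Q - s = m + 2 := by omega
      have q2 : Q - (s + 1) = m + 1 := by omega
      rw [q1] at p2
      rw [q2]
      have hpos : 0 < #(ind V E (s + 1)) := by
        by_contra h
        have h' : #(ind V E (s + 1)) = 0 := by omega
        rw [h', Nat.mul_zero] at p2
        have : 0 < 3 * (m + 2) * #(ind V E s) := Nat.mul_pos (by omega) p1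
        omega
      refine ⟨hpos, ?_⟩
      rcases Nat.eq_zero_or_pos s with hs0 | hs0
      · subst hs0
        have hc : (#V).choose 2 * 2 = #V * (#V - 1) := by
          have := Nat.choose_succ_right_eq (#V) 1
          rw [Nat.choose_one_right] at this
          exact this
        show 3 * (m + 1) * #(ind V E 1) ≤ 2 * #(ind V E 2)
        rw [hone]
        have hV1 : #V - 1 = 3 * m + 5 := by omega
        rw [hV1] at hc
        have hVm : #V = 3 * m + 6 := by omega
        rw [hVm] at hc ⊢
        rw [hVm] at htwo
        have hE' : #E ≤ 3 * m + 6 := by omega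
        nlinarith
      · have hc := hCS s
        have hVm : #V = 3 * (s + m + 2) := by omega
        rw [hVm] at hc
        generalize #(ind V E s) = A at *
        generalize #(ind V E (s + 1)) = B at *
        generalize #(ind V E (s + 2)) = C at *
        have e1 : 3 * (m + 2) * ((s + 1) * B) ^ 2 ≤
            (s + 1) * B * (3 * (s + m + 2) * B + s * (s + 2) * C) := by
          calc 3 * (m + 2) * ((s + 1) * B) ^ 2
              ≤ 3 * (m + 2) * (A * (3 * (s + m + 2) * B + s * (s + 2) * C)) :=
                Nat.mul_le_mul_left _ hc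
            _ = 3 * (m + 2) * A * (3 * (s + m + 2) * B + s * (s + 2) * C) := by ring
            _ ≤ _ := Nat.mul_le_mul_right _ p2
        have e2 : 3 * (m + 2) * ((s + 1) * B) ≤ 3 * (s + m + 2) * B + s * (s + 2) * C := by
          have e6 : (s + 1) * B * (3 * (m + 2) * ((s + 1) * B)) ≤
              (s + 1) * B * (3 * (s + m + 2) * B + s * (s + 2) * C) := by
            calc (s + 1) * B * (3 * (m + 2) * ((s + 1) * B))
                = 3 * (m + 2) * ((s + 1) * B) ^ 2 := by ring
              _ ≤ _ := e1
          exact Nat.le_of_mul_le_mul_left e6 (Nat.mul_pos (by omega) hpos)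
        have e3 : s * (3 * (m + 1) * B) ≤ s * ((s + 2) * C) := by
          have e4 : 3 * (m + 2) * ((s + 1) * B) = 3 * (s + m + 2) * B + s * (3 * (m + 1) * B) := by
            ring
          have e5 : s * (s + 2) * C = s * ((s + 2) * C) := by ring
          rw [e4, e5] at e2
          omega
        exact Nat.le_of_mul_le_mul_left e3 hs0
  have fin : ∀ s : ℕ, s ≤ Q → 3 ^ s * Q.choose s ≤ #(ind V E s) := by
    intro s
    induction s with
    | zero =>
      intro _
      rw [h0]
      simp
    | succ s ih =>
      intro hs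
      obtain ⟨p1, p2⟩ := key s (by omega)
      have p3 := ih (by omega)
      have hc := Nat.choose_succ_right_eq Q s
      have e7 : (s + 1) * (3 ^ (s + 1) * Q.choose (s + 1)) ≤ (s + 1) * #(ind V E (s + 1)) := by
        calc (s + 1) * (3 ^ (s + 1) * Q.choose (s + 1))
            = 3 ^ s * 3 * (Q.choose (s + 1) * (s + 1)) := by ring
          _ = 3 ^ s * 3 * (Q.choose s * (Q - s)) := by rw [hc]
          _ = 3 * (Q - s) * (3 ^ s * Q.choose s) := by ring
          _ ≤ 3 * (Q - s) * #(ind V E s) := Nat.mul_le_mul_left _ p3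
          _ ≤ _ := p2
      exact Nat.le_of_mul_le_mul_left e7 (by omega)
  have := fin Q le_rfl
  rwa [Nat.choose_self, Nat.mul_one] at this

end Pool.Agent.helper41.CL
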