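import Pool.Agent.helper47.CL.SpecD

set_option autoImplicit false

namespace Pool.Agent.helper41.CL

open Finset

/-- Two different pairs at `b` and degree at most two give `Tw`. -/
theorem NS_tw {α : Type} [DecidableEq α] {E : Finset (Finset α)} {b p y : α}
    (h2 : #(inc E b) ≤ 2) (hp : {b, p} ∈ E) (hy : {b, y} ∈ E) (hpy : p ≠ y) (hbp : b ≠ p)
    (hby : b ≠ y) : Tw E b p y := by
  refine ⟨hpy, hbp, hby, hp, hy, ?_⟩
  intro e he hbe
  have hne : ({b, p} : Finset α) ≠ {b, y} := by
    intro h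
    have h1 : p ∈ ({b, y} : Finset α) := by
      rw [← h]
      simp
    rcases mem_insert.1 h1 with h3 | h3
    · exact hbp h3.symm
    · exact hpy (mem_singleton.1 h3)
  have hsub : ({{b, p}, {b, y}} : Finset (Finset α)) ⊆ inc E b := by
    intro f hf
    rcases mem_insert.1 hf with h3 | h3
    · rw [h3]
      exact mem_filter.2 ⟨hp, by simp⟩
    · rw [mem_singleton.1 h3]
      exact mem_filter.2 ⟨hy, by simp⟩
  have hcard : #({{b, p}, {b, y}} : Finset (Finset α)) = 2 := card_pair hne
  have heq := eq_of_subset_of_card_le hsub (by rw [hcard]; exact h2)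
  have hein : e ∈ inc E b := mem_filter.2 ⟨he, hbe⟩
  rw [← heq] at hein
  rcases mem_insert.1 hein with h3 | h3
  · exact Or.inl h3
  · exact Or.inr (mem_singleton.1 h3)

theorem NS_pos {α : Type} [DecidableEq α] {E : Finset (Finset α)} {e : Finset α} {a : α}
    (he : e ∈ E) (ha : a ∈ e) : 1 ≤ #(inc E a) :=
  card_pos.2 ⟨e, mem_filter.2 ⟨he, ha⟩⟩

theorem NS_two {α : Type} [DecidableEq α] {E : Finset (Finset α)} {e f : Finset α} {a : α}
    (he : e ∈ E) (hf : f ∈ E) (hef : e ≠ f) (ha : a ∈ e) (ha' : a ∈ f) : 2 ≤ #(inc E a) := by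
  have hsub : ({e, f} : Finset (Finset α)) ⊆ inc E a := by
    intro g hg
    rcases mem_insert.1 hg with h3 | h3
    · rw [h3]
      exact mem_filter.2 ⟨he, ha⟩
    · rw [mem_singleton.1 h3]
      exact mem_filter.2 ⟨hf, ha'⟩
  have h := card_le_card hsub
  rwa [card_pair hef] at h

theorem NS_pair {α : Type} [DecidableEq α] {e : Finset α} {b : α} (he : #e = 2) (hb : b ∈ e) :
    ∃ y, b ≠ y ∧ e = {b, y} := by
  obtain ⟨x, y, hxy, h⟩ := card_eq_two.1 he
  rw [h] at hb
  rcases mem_insert.1 hb with h3 | h3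
  · exact ⟨y, by rw [h3]; exact hxy, by rw [h, h3]⟩
  · have h4 := mem_singleton.1 h3
    exact ⟨x, by rw [h4]; exact hxy.symm, by rw [h, h4, pair_comm]⟩

/-- The case with degrees one and two. -/
theorem NS_half {α : Type} [DecidableEq α] {V : Finset α} {E : Finset (Finset α)} (hG : Gr V E)
    (hd : ∀ x, #(inc E x) ≤ 2) {p a b : α} (hT : Tw E p a b) (ha : #(inc E a) = 1)
    (hb : #(inc E b) = 2) :
    (∃ p a b, Tw E p a b ∧ 2 ≤ #(inc E a) ∧ 2 ≤ #(inc E b) ∧ {a, b} ∉ E) ∨
    (∃ p a b y, Tw E p a b ∧ Tw E b p y ∧ #(inc E a) = 1 ∧ #(inc E y) = 1) := by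
  obtain ⟨hab, hpa, hpb, hpaE, hpbE, hall⟩ := hT
  have hbp : ({b, p} : Finset α) ∈ E := by rw [pair_comm]; exact hpbE
  have hex : ∃ e ∈ inc E b, e ≠ {b, p} := by
    by_contra hcon
    push Not at hcon
    have : inc E b ⊆ {{b, p}} := fun e he => mem_singleton.2 (hcon e he)
    have h := card_le_card this
    rw [card_singleton, hb] at h
    omega
  obtain ⟨e, he, hne⟩ := hex
  obtain ⟨heE, hbe⟩ := mem_filter.1 he
  obtain ⟨y, hby, rfl⟩ := NS_pair (hG e heE).2 hbe
  have hpy : p ≠ y := by
    intro h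
    exact hne (by rw [h])
  have hT2 : Tw E b p y := NS_tw hb.le hbp heE hpy (Ne.symm hpb) hby
  have hy1 : 1 ≤ #(inc E y) := NS_pos heE (by simp)
  have hy2 := hd y
  have hya : y ≠ a := by
    intro h
    have h2 : 2 ≤ #(inc E a) := by
      refine NS_two (e := {b, y}) (f := {p, a}) heE hpaE ?_ (by rw [h]; simp) (by simp)
      intro h3
      have h4 : b ∈ ({p, a} : Finset α) := by
        rw [← h3]
        simp
      rcases mem_insert.1 h4 with h5 | h5
      · exact hpb h5.symm
      · exact hab (mem_singleton.1 h5).symm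
    omega
  rcases (show #(inc E y) = 1 ∨ 2 ≤ #(inc E y) by omega) with h1 | h1
  · right
    exact ⟨p, a, b, y, ⟨hab, hpa, hpb, hpaE, hpbE, hall⟩, hT2, ha, h1⟩
  · left
    refine ⟨b, p, y, hT2, ?_, h1, ?_⟩
    · refine NS_two (e := {p, a}) (f := {p, b}) hpaE hpbE ?_ (by simp) (by simp)
      intro h3
      have h4 : a ∈ ({p, b} : Finset α) := by
        rw [← h3]
        simp
      rcases mem_insert.1 h4 with h5 | h5
      · exact hpa h5.symm
      · exact hab (mem_singleton.1 h5)
    · intro hpyE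
      have hy : y ∈ ({p, y} : Finset α) := by simp
      rcases hall _ hpyE (by simp) with h3 | h3
      · rw [h3] at hy
        rcases mem_insert.1 hy with h5 | h5
        · exact hpy h5.symm
        · exact hya (mem_singleton.1 h5)
      · rw [h3] at hy
        rcases mem_insert.1 hy with h5 | h5
        · exact hpy h5.symm
        · exact hby (mem_singleton.1 h5).symm

theorem NS : NS_stmt := by
  intro α _ V E hG
  by_cases h1 : ∃ p, 3 ≤ #(inc E p)
  · exact Or.inl h1
  · right
    have hd : ∀ x, #(inc E x) ≤ 2 := by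
      intro x
      by_contra h
      exact h1 ⟨x, by omega⟩
    by_cases h5 : ∀ p a b, Tw E p a b → #(inc E a) = 1 ∧ #(inc E b) = 1
    · exact Or.inr (Or.inr (Or.inr ⟨hd, h5⟩))
    · push Not at h5
      obtain ⟨p, a, b, hT, hab⟩ := h5
      have ha1 : 1 ≤ #(inc E a) := NS_pos hT.2.2.2.1 (by simp)
      have hb1 : 1 ≤ #(inc E b) := NS_pos hT.2.2.2.2.1 (by simp)
      have ha2 := hd a
      have hb2 := hd b
      rcases (show #(inc E a) = 1 ∨ #(inc E a) = 2 by omega) with ha | ha
      · have hb : #(inc E b) = 2 := by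
          have := hab ha
          omega
        rcases NS_half hG hd hT ha hb with h | h
        · exact Or.inl h
        · exact Or.inr (Or.inr (Or.inl h))
      · rcases (show #(inc E b) = 1 ∨ #(inc E b) = 2 by omega) with hb | hb
        · have hT' : Tw E p b a := by
            obtain ⟨g1, g2, g3, g4, g5, g6⟩ := hT
            exact ⟨g1.symm, g3, g2, g5, g4, fun e he hp => (g6 e he hp).symm⟩
          rcases NS_half hG hd hT' hb ha with h | h
          · exact Or.inl h
          · exact Or.inr (Or.inr (Or.inl h))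
        · by_cases hE : ({a, b} : Finset α) ∈ E
          · exact Or.inr (Or.inl ⟨hd, p, a, b, hT, hE⟩)
          · exact Or.inl ⟨p, a, b, hT, ha.ge, hb.ge, hE⟩

end Pool.Agent.helper41.CL
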