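import Pool.Agent.helper26.CL.NS

set_option autoImplicit false

namespace Pool.Agent.helper41.CL

open Finset

theorem NT_adj {α : Type} [DecidableEq α] {E : Finset (Finset α)} {p a b : α}
    (h1 : {p, a} ∈ E) (h2 : {p, b} ∈ E) (h3 : {a, b} ∈ E) :
    ∀ u ∈ ({p, a, b} : Finset α), ∀ v ∈ ({p, a, b} : Finset α), u ≠ v → {u, v} ∈ E := by
  have h1' : {a, p} ∈ E := by rw [pair_comm]; exact h1
  have h2' : {b, p} ∈ E := by rw [pair_comm]; exact h2
  have h3' : {b, a} ∈ E := by rw [pair_comm]; exact h3
  intro u hu v hv huv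
  have hu' : u = p ∨ u = a ∨ u = b := by simpa using hu
  have hv' : v = p ∨ v = a ∨ v = b := by simpa using hv
  rcases hu' with hu' | hu' | hu' <;> rcases hv' with hv' | hv' | hv' <;> rw [hu', hv'] <;>
    first
      | assumption
      | exact absurd (hu'.trans hv'.symm) huv

theorem NT : NT_stmt := by
  intro α _ V E p a b hG hd hT habE
  obtain ⟨hab, hpa, hpb, hpaE, hpbE, hall⟩ := hT
  have hapE : ({a, p} : Finset α) ∈ E := by rw [pair_comm]; exact hpaE
  have hbpE : ({b, p} : Finset α) ∈ E := by rw [pair_comm]; exact hpbE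
  have hbaE : ({b, a} : Finset α) ∈ E := by rw [pair_comm]; exact habE
  have hTa : Tw E a p b := NS_tw (hd a) hapE habE hpb hpa.symm hab
  have hTb : Tw E b p a := NS_tw (hd b) hbpE hbaE hpa hpb.symm hab.symm
  have hadj := NT_adj hpaE hpbE habE
  have hpV : p ∈ V := (hG _ hpaE).1 (by simp)
  have haV : a ∈ V := (hG _ hpaE).1 (by simp)
  have hbV : b ∈ V := (hG _ hpbE).1 (by simp)
  have hSV : ({p, a, b} : Finset α) ⊆ V := by
    intro x hx
    have hx' : x = p ∨ x = a ∨ x = b := by simpa using hx
    rcases hx' with h | h | h <;> rw [h] <;> assumption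
  have hS3 : #({p, a, b} : Finset α) = 3 := by
    rw [card_insert_of_notMem, card_pair hab]
    simp [hpa, hpb]
  -- members that meet S
  have hmeet : ∀ e ∈ E, ¬ Disjoint e ({p, a, b} : Finset α) → e = {p, a} ∨ e = {p, b} ∨ e = {a, b} := by
    intro e he hnd
    rw [not_disjoint_iff] at hnd
    obtain ⟨x, hxe, hx⟩ := hnd
    have hx' : x = p ∨ x = a ∨ x = b := by simpa using hx
    rcases hx' with h | h | h
    · rw [h] at hxe
      rcases hall e he hxe with h4 | h4
      · exact Or.inl h4
      · exact Or.inr (Or.inl h4)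
    · rw [h] at hxe
      rcases hTa.2.2.2.2.2 e he hxe with h4 | h4
      · left; rw [h4, pair_comm]
      · exact Or.inr (Or.inr h4)
    · rw [h] at hxe
      rcases hTb.2.2.2.2.2 e he hxe with h4 | h4
      · right; left; rw [h4, pair_comm]
      · right; right; rw [h4, pair_comm]
  have hmeet2 : ∀ e ∈ E, ¬ Disjoint e ({p, a, b} : Finset α) →
      ∃ u v, u ≠ v ∧ u ∈ ({p, a, b} : Finset α) ∧ v ∈ ({p, a, b} : Finset α) ∧ e = {u, v} := by
    intro e he hnd
    rcases hmeet e he hnd with h | h | h
    · exact ⟨p, a, hpa, by simp, by simp, h⟩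
    · exact ⟨p, b, hpb, by simp, by simp, h⟩
    · exact ⟨a, b, hab, by simp, by simp, h⟩
  refine ⟨?_, ?_, ?_, ?_, ?_⟩
  · intro e he
    obtain ⟨heE, hdis⟩ := mem_filter.1 he
    refine ⟨fun x hx => mem_sdiff.2 ⟨(hG e heE).1 hx, fun hxS => ?_⟩, (hG e heE).2⟩
    exact disjoint_left.1 hdis hx hxS
  · have h := card_sdiff_add_card_eq_card hSV
    rw [hS3] at h
    exact h
  · have h := card_filter_add_card_filter_not (s := E) (fun e => Disjoint e ({p, a, b} : Finset α))
    have h2 : E.filter (fun e => ¬ Disjoint e ({p, a, b} : Finset α)) = {{p, a}, {p, b}, {a, b}} := by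
      ext e
      constructor
      · intro he
        obtain ⟨heE, hnd⟩ := mem_filter.1 he
        rcases hmeet e heE hnd with h | h | h <;> simp [h]
      · intro he
        have he' : e = {p, a} ∨ e = {p, b} ∨ e = {a, b} := by simpa using he
        rcases he' with h | h | h
        · rw [h]
          exact mem_filter.2 ⟨hpaE, not_disjoint_iff.2 ⟨p, by simp, by simp⟩⟩
        · rw [h]
          exact mem_filter.2 ⟨hpbE, not_disjoint_iff.2 ⟨p, by simp, by simp⟩⟩
        · rw [h]
          exact mem_filter.2 ⟨habE, not_disjoint_iff.2 ⟨a, by simp, by simp⟩⟩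
    have n1 : ({p, a} : Finset α) ≠ {p, b} := by
      intro h
      have : a ∈ ({p, b} : Finset α) := by rw [← h]; simp
      simp [hpa.symm, hab] at this
    have n2 : ({p, a} : Finset α) ≠ {a, b} := by
      intro h
      have : p ∈ ({a, b} : Finset α) := by rw [← h]; simp
      simp [hpa, hpb] at this
    have n3 : ({p, b} : Finset α) ≠ {a, b} := by
      intro h
      have : p ∈ ({a, b} : Finset α) := by rw [← h]; simp
      simp [hpa, hpb] at this
    have h3 : #({{p, a}, {p, b}, {a, b}} : Finset (Finset α)) = 3 := by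
      rw [card_insert_of_notMem, card_pair n3]
      simp only [mem_insert, mem_singleton, not_or]
      exact ⟨n1, n2⟩
    rw [h2, h3] at h
    exact h
  · intro k
    have h := card_le_card_of_injOn
      (s := ({p, a, b} : Finset α) ×ˢ ind (V \ {p, a, b}) (av E {p, a, b}) k)
      (t := ind V E (k + 1)) (fun q => insert q.1 q.2) ?_ ?_
    · rw [card_product, hS3] at h
      exact h
    · rintro ⟨x, J⟩ hxJ
      have hxJ' := mem_product.1 (mem_coe.1 hxJ)
      obtain ⟨hx, hJ⟩ := hxJ'
      obtain ⟨hJ1, hJ2⟩ := mem_filter.1 hJ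
      obtain ⟨hJ3, hJ4⟩ := mem_powersetCard.1 hJ1
      have hdis : ∀ y ∈ ({p, a, b} : Finset α), y ∉ J := fun y hy hyJ =>
        (mem_sdiff.1 (hJ3 hyJ)).2 hy
      refine mem_coe.2 (mem_filter.2 ⟨mem_powersetCard.2 ⟨?_, ?_⟩, ?_⟩)
      · intro y hy
        rcases mem_insert.1 hy with h | h
        · rw [h]
          exact hSV hx
        · exact (mem_sdiff.1 (hJ3 h)).1
      · rw [card_insert_of_notMem (hdis x hx), hJ4]
      · intro e he hsub
        by_cases hdj : Disjoint e ({p, a, b} : Finset α)
        · refine hJ2 e (mem_filter.2 ⟨he, hdj⟩) ?_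
          intro y hy
          rcases mem_insert.1 (hsub hy) with h | h
          · exfalso
            rw [h] at hy
            exact disjoint_left.1 hdj hy hx
          · exact h
        · obtain ⟨u, v, huv, hu, hv, heq⟩ := hmeet2 e he hdj
          have g1 : u = x := by
            rcases mem_insert.1 (hsub (by rw [heq]; simp : u ∈ e)) with h | h
            · exact h
            · exact absurd h (hdis u hu)
          have g2 : v = x := by
            rcases mem_insert.1 (hsub (by rw [heq]; simp : v ∈ e)) with h | h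
            · exact h
            · exact absurd h (hdis v hv)
          exact huv (g1.trans g2.symm)
    · rintro ⟨x, J⟩ hxJ ⟨y, K⟩ hyK hEq
      obtain ⟨hx, hJ⟩ := mem_product.1 (mem_coe.1 hxJ)
      obtain ⟨hy, hK⟩ := mem_product.1 (mem_coe.1 hyK)
      obtain ⟨hJ3, -⟩ := mem_powersetCard.1 (mem_filter.1 hJ).1
      obtain ⟨hK3, -⟩ := mem_powersetCard.1 (mem_filter.1 hK).1
      have dJ : ∀ z ∈ ({p, a, b} : Finset α), z ∉ J := fun z hz hzJ =>
        (mem_sdiff.1 (hJ3 hzJ)).2 hz
      have dK : ∀ z ∈ ({p, a, b} : Finset α), z ∉ K := fun z hz hzK =>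
        (mem_sdiff.1 (hK3 hzK)).2 hz
      have hEq' : insert x J = insert y K := hEq
      have hxy : x = y := by
        have : x ∈ insert y K := by rw [← hEq']; exact mem_insert_self _ _
        rcases mem_insert.1 this with h | h
        · exact h
        · exact absurd h (dK x hx)
      have hJK : J = K := by
        rw [← erase_insert (dJ x hx), hEq', hxy, erase_insert (dK y hy)]
      rw [hxy, hJK]
  · intro k hH
    rcases hH with ⟨y, hyV, hy⟩ | hH
    · left
      refine ⟨y, mem_sdiff.2 ⟨hyV, ?_⟩, fun e he => hy e (mem_filter.1 he).1⟩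
      intro hyS
      have hy' : y = p ∨ y = a ∨ y = b := by simpa using hyS
      rcases hy' with h | h | h
      · exact hy _ hpaE (by simp [h])
      · exact hy _ hpaE (by simp [h])
      · exact hy _ hpbE (by simp [h])
    · right
      intro x hx
      obtain ⟨I, hI, hxI⟩ := hH x (mem_sdiff.1 hx).1
      obtain ⟨hI1, hI2⟩ := mem_filter.1 hI
      obtain ⟨hI3, hI4⟩ := mem_powersetCard.1 hI1
      have hle : #(I ∩ {p, a, b}) ≤ 1 := by
        rw [card_le_one]
        intro u hu v hv
        by_contra huv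
        have hu' := mem_inter.1 hu
        have hv' := mem_inter.1 hv
        refine hI2 _ (hadj u hu'.2 v hv'.2 huv) ?_
        intro z hz
        rcases mem_insert.1 hz with h | h
        · rw [h]; exact hu'.1
        · rw [mem_singleton.1 h]; exact hv'.1
      have hk : k ≤ #(I \ {p, a, b}) := by
        have := card_sdiff_add_card_inter I ({p, a, b} : Finset α)
        omega
      obtain ⟨J, hJsub, hJc⟩ := exists_subset_card_eq hk
      refine ⟨J, mem_filter.2 ⟨mem_powersetCard.2 ⟨?_, hJc⟩, ?_⟩, fun h => hxI (mem_sdiff.1 (hJsub h)).1⟩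
      · intro z hz
        have h := mem_sdiff.1 (hJsub hz)
        exact mem_sdiff.2 ⟨hI3 h.1, h.2⟩
      · intro e he hsub
        exact hI2 e (mem_filter.1 he).1 (fun z hz => (mem_sdiff.1 (hJsub (hsub hz))).1)

end Pool.Agent.helper41.CL
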