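import Pool.Agent.helper26.CL.NS

set_option autoImplicit false

namespace Pool.Agent.helper41.CL

open Finset

/-- degree one -/
theorem ZS_one {α : Type} [DecidableEq α] {V : Finset α} {E : Finset (Finset α)} (hG : Gr V E)
    {x : α} (h : #(inc E x) = 1) :
    ∃ a, x ≠ a ∧ {x, a} ∈ E ∧ ∀ e ∈ E, x ∈ e → e = {x, a} := by
  obtain ⟨e, he⟩ := card_eq_one.1 h
  have he1 : e ∈ inc E x := by rw [he]; exact mem_singleton_self _
  obtain ⟨heE, hxe⟩ := mem_filter.1 he1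
  obtain ⟨a, hxa, rfl⟩ := NS_pair (hG e heE).2 hxe
  refine ⟨a, hxa, heE, fun f hf hxf => ?_⟩
  have : f ∈ inc E x := mem_filter.2 ⟨hf, hxf⟩
  rw [he] at this
  exact mem_singleton.1 this

/-- degree two -/
theorem ZS_two {α : Type} [DecidableEq α] {V : Finset α} {E : Finset (Finset α)} (hG : Gr V E)
    {x : α} (h : #(inc E x) = 2) : ∃ a b, Tw E x a b := by
  obtain ⟨e, f, hef, he⟩ := card_eq_two.1 h
  have he1 : e ∈ inc E x := by rw [he]; simp
  have hf1 : f ∈ inc E x := by rw [he]; simp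
  obtain ⟨heE, hxe⟩ := mem_filter.1 he1
  obtain ⟨hfE, hxf⟩ := mem_filter.1 hf1
  obtain ⟨a, hxa, rfl⟩ := NS_pair (hG e heE).2 hxe
  obtain ⟨b, hxb, rfl⟩ := NS_pair (hG f hfE).2 hxf
  exact ⟨a, b, NS_tw h.le heE hfE (fun hab => hef (by rw [hab])) hxa hxb⟩

theorem ZS : ZS_stmt := by
  intro α _ V E hG
  by_cases h1 : ∃ x a, Lf E x a
  · exact Or.inl h1
  by_cases h2 : (∃ y ∈ V, ∀ e ∈ E, y ∉ e) ∧ ∃ a, 2 ≤ #(inc E a)
  · exact Or.inr (Or.inl h2)
  by_cases h3 : ∃ p a b, Tw E p a b ∧ 2 ≤ #(inc E a) ∧ 2 ≤ #(inc E b)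
  · exact Or.inr (Or.inr (Or.inl h3))
  by_cases h4 : ∀ x, #(inc E x) ≤ 1
  · exact Or.inr (Or.inr (Or.inr (Or.inl h4)))
  refine Or.inr (Or.inr (Or.inr (Or.inr ?_)))
  have htwo : ∀ x, #(inc E x) ≠ 2 := by
    intro x hx
    obtain ⟨a, b, hT⟩ := ZS_two hG hx
    have hT' := hT
    obtain ⟨hab, hxa, hxb, hxaE, hxbE, hall⟩ := hT'
    have leaf : ∀ c, x ≠ c → {x, c} ∈ E → 2 ≤ #(inc E c) := by
      intro c hxc hxcE
      by_contra hlt
      have hpos : 1 ≤ #(inc E c) := NS_pos hxcE (by simp)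
      have hc : #(inc E c) = 1 := by omega
      obtain ⟨d, hcd, hcdE, hall2⟩ := ZS_one hG hc
      have heq : ({x, c} : Finset α) = {c, d} := hall2 _ hxcE (by simp)
      have hxd : x = d := by
        have : x ∈ ({c, d} : Finset α) := by rw [← heq]; simp
        rcases mem_insert.1 this with h | h
        · exact absurd h hxc
        · exact mem_singleton.1 h
      refine h1 ⟨c, x, hxc.symm, ?_, ?_, hx.ge⟩
      · rw [hxd]
        exact hcdE
      · rw [hxd]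
        exact hall2
    exact h3 ⟨x, a, b, hT, leaf a hxa hxaE, leaf b hxb hxbE⟩
  push Not at h4
  obtain ⟨p, hp⟩ := h4
  have hp3 : 3 ≤ #(inc E p) := by
    have := htwo p
    omega
  refine ⟨⟨p, hp3⟩, ?_⟩
  intro x hx
  by_cases hx3 : 3 ≤ #(inc E x)
  · exact Or.inl hx3
  · right
    have hx2 := htwo x
    have hx0 : #(inc E x) ≠ 0 := by
      intro h0
      refine h2 ⟨⟨x, hx, fun e he hxe => ?_⟩, p, by omega⟩
      have := NS_pos he hxe
      omega
    have hx1 : #(inc E x) = 1 := by omega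
    obtain ⟨a, hxa, hxaE, hall⟩ := ZS_one hG hx1
    have ha1 : 1 ≤ #(inc E a) := NS_pos hxaE (by simp)
    have ha : #(inc E a) = 1 := by
      by_contra hne
      exact h1 ⟨x, a, hxa, hxaE, hall, by omega⟩
    obtain ⟨d, had, hadE, hall2⟩ := ZS_one hG ha
    refine ⟨a, hxa, hxaE, ?_⟩
    intro e he hor
    rcases hor with h | h
    · exact hall e he h
    · rw [hall2 e he h]
      exact (hall2 _ hxaE (by simp)).symm

end Pool.Agent.helper41.CL
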